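import Pool.Agent.H1.WeakTrans.Points

set_option autoImplicit false

/-!
A family of nonarchimedean multiplicative norms on `ℚ[X]`, one for every prime.
-/

namespace Pool.Agent.H1.WeakTrans

open Polynomial

/-- The prime `2`. -/
def p2 : Nat.Primes := ⟨2, Nat.prime_two⟩
/-- The prime `5`. -/
def p5 : Nat.Primes := ⟨5, Nat.prime_five⟩

theorem padic_isNonarchimedean (p : ℕ) [Fact p.Prime] :
    IsNonarchimedean (Rat.AbsoluteValue.padic p) := by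
  intro x y
  rw [Rat.AbsoluteValue.padic_eq_padicNorm, Rat.AbsoluteValue.padic_eq_padicNorm,
    Rat.AbsoluteValue.padic_eq_padicNorm]
  exact_mod_cast padicNorm.nonarchimedean

/-- The family of norms attached to a family of points. -/
noncomputable def nrm (ω : ∀ p : Nat.Primes, ℤ_[(p : ℕ)]) (p : Nat.Primes) (f : ℚ[X]) : ℝ :=
  if (p : ℕ) = 5 then f.gaussNorm (Rat.AbsoluteValue.padic p) 1 else ‖ev p (ω p) f‖

section

variable (ω : ∀ p : Nat.Primes, ℤ_[(p : ℕ)])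

theorem nrm_mul (p : Nat.Primes) (f g : ℚ[X]) : nrm ω p (f * g) = nrm ω p f * nrm ω p g := by
  unfold nrm
  split_ifs with h
  · exact gaussNorm_mul (padic_isNonarchimedean p) one_pos f g
  · rw [map_mul, norm_mul]

theorem nrm_add (p : Nat.Primes) (f g : ℚ[X]) :
    nrm ω p (f + g) ≤ max (nrm ω p f) (nrm ω p g) := by
  unfold nrm
  split_ifs with h
  · exact isNonarchimedean_gaussNorm _ (padic_isNonarchimedean p) zero_le_one f g
  · rw [map_add]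
    exact Padic.nonarchimedean _ _

theorem nrm_C (p : Nat.Primes) (c : ℚ) : nrm ω p (C c) = (padicNorm p c : ℝ) := by
  unfold nrm
  split_ifs with h
  · rw [gaussNorm_C, Rat.AbsoluteValue.padic_eq_padicNorm]
  · unfold ev
    rw [aeval_C, eq_ratCast, Padic.eq_padicNorm]

theorem nrm_X_le (p : Nat.Primes) : nrm ω p X ≤ 1 := by
  unfold nrm
  split_ifs with h
  · rw [← monomial_one_one_eq_X, gaussNorm_monomial]
    simp
  · unfold ev
    rw [aeval_X]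
    exact (ω p).2

theorem nrm_five (f : ℚ[X]) (hf : nrm ω p5 f ≤ 1) (k : ℕ) : padicNorm 5 (f.coeff k) ≤ 1 := by
  have h5 : ((p5 : Nat.Primes) : ℕ) = 5 := rfl
  unfold nrm at hf
  rw [if_pos h5] at hf
  have h1 := (le_gaussNorm (Rat.AbsoluteValue.padic (p5 : ℕ)) f zero_le_one k).trans hf
  rw [one_pow, mul_one, Rat.AbsoluteValue.padic_eq_padicNorm] at h1
  exact_mod_cast h1

theorem nrm_two (f : ℚ[X]) (hf : nrm ω p2 f ≤ 1) (n : ℕ) :
    ∃ k : ℤ, nrm ω p2 (f - C (k : ℚ)) ≤ (2 : ℝ) ^ (-(n : ℤ)) := by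
  have h2 : ¬ ((p2 : Nat.Primes) : ℕ) = 5 := by decide
  unfold nrm at hf
  rw [if_neg h2] at hf
  let z : ℤ_[(p2 : ℕ)] := ⟨ev p2 (ω p2) f, hf⟩
  refine ⟨(z.appr n : ℕ), ?_⟩
  unfold nrm
  rw [if_neg h2]
  have h3 : ev p2 (ω p2) (f - C (((z.appr n : ℕ) : ℤ) : ℚ)) = ((z - (z.appr n : ℤ_[(p2 : ℕ)]) : ℤ_[(p2 : ℕ)]) : ℚ_[(p2 : ℕ)]) := by
    rw [map_sub]
    unfold ev
    rw [aeval_C]
    simp [z, ev]
  rw [h3]
  have h4 := (PadicInt.norm_le_pow_iff_mem_span_pow (z - (z.appr n : ℤ_[(p2 : ℕ)])) n).2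
    (PadicInt.appr_spec n z)
  have h5 : (((p2 : ℕ) : ℕ) : ℝ) = 2 := by norm_num [p2]
  rw [h5] at h4
  exact h4

variable (hω : ∀ (p : Nat.Primes) (f : ℚ[X]), f ≠ 0 → ev p (ω p) f ≠ 0)

include hω in
theorem nrm_zpow (p : Nat.Primes) (f : ℚ[X]) (hf : f ≠ 0) :
    ∃ k : ℤ, nrm ω p f = ((p : ℕ) : ℝ) ^ (-k) := by
  unfold nrm
  split_ifs with h
  · obtain ⟨i, hi⟩ := exists_eq_gaussNorm (Rat.AbsoluteValue.padic p) 1 f
    rw [one_pow, mul_one, Rat.AbsoluteValue.padic_eq_padicNorm] at hi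
    have hne : f.gaussNorm (Rat.AbsoluteValue.padic p) 1 ≠ 0 := by
      intro h0
      rw [gaussNorm_eq_zero_iff _ _ (fun x hx => (AbsoluteValue.eq_zero _).1 hx) one_pos] at h0
      exact hf h0
    have hc : f.coeff i ≠ 0 := by
      intro h0
      rw [h0] at hi
      simp at hi
      exact hne hi
    refine ⟨padicValRat p (f.coeff i), ?_⟩
    rw [hi, padicNorm.eq_zpow_of_nonzero hc]
    push_cast
    rfl
  · exact ⟨_, Padic.norm_eq_zpow_neg_valuation (hω p f hf)⟩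

end

/-- Existence of the family of norms. -/
theorem exists_norms : ∃ N : Nat.Primes → ℚ[X] → ℝ,
    (∀ p f g, N p (f * g) = N p f * N p g) ∧
    (∀ p f g, N p (f + g) ≤ max (N p f) (N p g)) ∧
    (∀ p (c : ℚ), N p (C c) = (padicNorm p c : ℝ)) ∧
    (∀ p, N p X ≤ 1) ∧
    (∀ p f, f ≠ 0 → ∃ k : ℤ, N p f = ((p : ℕ) : ℝ) ^ (-k)) ∧
    (∀ f g, ¬ f ∣ g → ∃ p, N p f < N p g) ∧
    (∀ f, N p5 f ≤ 1 → ∀ k, padicNorm 5 (f.coeff k) ≤ 1) ∧
    (∀ f, N p2 f ≤ 1 → ∀ n : ℕ, ∃ k : ℤ, N p2 (f - C (k : ℚ)) ≤ (2 : ℝ) ^ (-(n : ℤ))) := by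
  obtain ⟨ω, h1, h2⟩ := exists_points
  refine ⟨nrm ω, nrm_mul ω, nrm_add ω, nrm_C ω, nrm_X_le ω, nrm_zpow ω h1, ?_, nrm_five ω,
    nrm_two ω⟩
  intro f g hfg
  obtain ⟨p, hp, hlt⟩ := h2 f g hfg
  refine ⟨p, ?_⟩
  unfold nrm
  rw [if_neg (by omega), if_neg (by omega)]
  exact hlt

end Pool.Agent.H1.WeakTrans
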