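import Mathlib

set_option autoImplicit false

/-!
Points `ω p ∈ ℤ_p`, one for every prime `p`, such that every `ω p` is transcendental and such that
divisibility in `ℚ[X]` is detected by the norms `‖f (ω p)‖`, `p ≠ 5`.
-/

namespace Pool.Agent.H1.WeakTrans

open Polynomial

/-- Infinitely many primes divide the values of a nonconstant integer polynomial. -/
theorem exists_prime_dvd_eval (f : ℤ[X]) (hf : 0 < f.natDegree) (B : ℕ) :
    ∃ p : ℕ, B < p ∧ p.Prime ∧ ∃ a : ℤ, (p : ℤ) ∣ f.eval a := by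
  obtain ⟨q, hq, hqp⟩ := Nat.exists_infinite_primes (B + 1)
  by_cases hc : f.eval 0 = 0
  · exact ⟨q, hq, hqp, 0, by rw [hc]; exact dvd_zero _⟩
  set c : ℤ := f.eval 0 with hcdef
  have hfac : ((B.factorial : ℕ) : ℤ) ≠ 0 := by exact_mod_cast B.factorial_ne_zero
  -- the values `0, c, -c` are taken only finitely often
  have hne : ∀ d : ℤ, (f - C d) ≠ 0 := by
    intro d h
    have h1 : f = C d := sub_eq_zero.1 h
    rw [h1, natDegree_C] at hf
    exact lt_irrefl _ hf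
  have hfin : ({a : ℤ | f.eval a = 0 ∨ f.eval a = c ∨ f.eval a = -c}).Finite := by
    have hd : ∀ d : ℤ, ({a : ℤ | f.eval a = d}).Finite := by
      intro d
      refine (finite_setOfPred_isRoot (hne d)).subset ?_
      intro a ha
      simp only [Set.mem_ofPred_eq] at ha ⊢
      rw [IsRoot.def, eval_sub, eval_C, ha, sub_self]
    have := ((hd 0).union ((hd c).union (hd (-c))))
    exact this.subset (fun a ha => by
      rcases ha with h | h | h
      · exact Or.inl h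
      · exact Or.inr (Or.inl h)
      · exact Or.inr (Or.inr h))
  have hinj : Function.Injective (fun t : ℤ => c * (B.factorial : ℤ) * t) := by
    intro s t hst
    exact mul_left_cancel₀ (mul_ne_zero hc hfac) hst
  obtain ⟨t, ht⟩ : ∃ t : ℤ, ¬ (c * (B.factorial : ℤ) * t) ∈
      {a : ℤ | f.eval a = 0 ∨ f.eval a = c ∨ f.eval a = -c} := by
    by_contra hcon
    push Not at hcon
    exact Set.infinite_univ ((hfin.preimage hinj.injOn).subset (fun t _ => hcon t))
  obtain ⟨s, hs⟩ := sub_dvd_eval_sub (c * (B.factorial : ℤ) * t) 0 f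
  rw [sub_zero] at hs
  have hval : f.eval (c * (B.factorial : ℤ) * t) = c * (1 + (B.factorial : ℤ) * (t * s)) := by
    have h2 : f.eval (c * (B.factorial : ℤ) * t) =
        (f.eval (c * (B.factorial : ℤ) * t) - f.eval 0) + f.eval 0 := by ring
    rw [h2, hs, ← hcdef]; ring
  set u : ℤ := 1 + (B.factorial : ℤ) * (t * s) with hu
  simp only [Set.mem_ofPred_eq, not_or] at ht
  obtain ⟨ht0, ht1, ht2⟩ := ht
  rw [hval] at ht0 ht1 ht2
  have hu1 : u.natAbs ≠ 1 := by
    intro h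
    rcases Int.natAbs_eq u with h1 | h1
    · rw [h] at h1; exact ht1 (by rw [h1]; simp)
    · rw [h] at h1; exact ht2 (by rw [h1]; simp)
  obtain ⟨p, hp, hpu⟩ := Nat.exists_prime_and_dvd hu1
  have hpu' : (p : ℤ) ∣ u := Int.natCast_dvd.2 hpu
  refine ⟨p, ?_, hp, c * (B.factorial : ℤ) * t, by rw [hval]; exact Dvd.dvd.mul_left hpu' c⟩
  by_contra hle
  rw [not_lt] at hle
  have h3 : (p : ℤ) ∣ (B.factorial : ℤ) := by
    exact_mod_cast (hp.dvd_factorial).2 hle
  have h4 : (p : ℤ) ∣ 1 := by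
    have h5 : (1 : ℤ) = u - (B.factorial : ℤ) * (t * s) := by rw [hu]; ring
    rw [h5]
    exact dvd_sub hpu' (Dvd.dvd.mul_right h3 _)
  have h6 : p ∣ 1 := by exact_mod_cast h4
  exact hp.one_lt.ne' (Nat.dvd_one.1 h6)

/-- Coefficients of a rational polynomial are `p`-integral for all large `p`. -/
theorem exists_bound_integral (h : ℚ[X]) :
    ∃ B : ℕ, ∀ (p : ℕ) [Fact p.Prime], B < p → ∀ k, ‖((h.coeff k : ℚ) : ℚ_[p])‖ ≤ 1 := by
  refine ⟨∑ k ∈ h.support, (h.coeff k).den, ?_⟩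
  intro p hp hB k
  by_cases hk : k ∈ h.support
  · apply Padic.norm_rat_le_one
    intro hdvd
    have h1 : p ≤ (h.coeff k).den := Nat.le_of_dvd (h.coeff k).den_pos hdvd
    have h2 : (h.coeff k).den ≤ ∑ k ∈ h.support, (h.coeff k).den :=
      Finset.single_le_sum (f := fun k => (h.coeff k).den) (fun _ _ => Nat.zero_le _) hk
    omega
  · rw [notMem_support_iff.1 hk]
    simp

/-- The evaluation of a rational polynomial at a point of `ℤ_p`. -/
noncomputable def ev (p : ℕ) [Fact p.Prime] (a : ℤ_[p]) : ℚ[X] →ₐ[ℚ] ℚ_[p] :=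
  aeval (a : ℚ_[p])

theorem norm_ev_le_one (p : ℕ) [Fact p.Prime] (a : ℤ_[p]) (h : ℚ[X])
    (hh : ∀ k, ‖((h.coeff k : ℚ) : ℚ_[p])‖ ≤ 1) : ‖ev p a h‖ ≤ 1 := by
  rw [ev, aeval_eq_sum_range]
  apply IsUltrametricDist.norm_sum_le_of_forall_le_of_nonneg zero_le_one
  intro k _
  rw [Algebra.smul_def, norm_mul, norm_pow]
  have h1 : ‖algebraMap ℚ ℚ_[p] (h.coeff k)‖ ≤ 1 := by
    rw [eq_ratCast]; exact hh k
  have h2 : ‖(a : ℚ_[p])‖ ≤ 1 := a.2
  exact mul_le_one₀ h1 (by positivity) (pow_le_one₀ (norm_nonneg _) h2)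

theorem continuous_ev (p : ℕ) [Fact p.Prime] (h : ℚ[X]) :
    Continuous (fun a : ℤ_[p] => ev p a h) := by
  unfold ev
  exact (Polynomial.continuous_aeval h).comp continuous_subtype_val

instance (p : ℕ) [Fact p.Prime] (x : ℤ_[p]) : (nhdsWithin x {x}ᶜ).NeBot := by
  rw [← mem_closure_iff_nhdsWithin_neBot, Metric.mem_closure_iff]
  intro ε hε
  obtain ⟨n, hn⟩ := PadicInt.exists_pow_neg_lt p hε
  refine ⟨x + (p : ℤ_[p]) ^ n, ?_, ?_⟩
  · simp only [Set.mem_compl_iff, Set.mem_singleton_iff, add_eq_left]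
    exact pow_ne_zero _ (by exact_mod_cast (Fact.out : p.Prime).ne_zero)
  · rw [dist_eq_norm]
    have : x - (x + (p : ℤ_[p]) ^ n) = -((p : ℤ_[p]) ^ n) := by ring
    rw [this, norm_neg, PadicInt.norm_p_pow]
    exact hn

theorem dense_ne_zero (p : ℕ) [Fact p.Prime] (h : ℚ[X]) (hh : h ≠ 0) :
    Dense {a : ℤ_[p] | ev p a h ≠ 0} := by
  have hfin : ({a : ℤ_[p] | ev p a h = 0}).Finite := by
    have h1 : (h.map (algebraMap ℚ ℚ_[p])) ≠ 0 := by
      rwa [Ne, Polynomial.map_eq_zero]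
    refine Set.Finite.subset ((finite_setOfPred_isRoot h1).preimage
      (Subtype.val_injective (p := fun x : ℚ_[p] => ‖x‖ ≤ 1)).injOn) ?_
    intro a ha
    simp only [Set.mem_ofPred_eq, Set.mem_preimage, IsRoot.def] at ha ⊢
    rw [eval_map, ← aeval_def]
    exact ha
  have := (dense_univ (X := ℤ_[p])).sdiff_finite hfin
  refine this.mono ?_
  intro a ha
  exact ha.2

/-- If `f ∤ g` then for arbitrarily large primes `p` there is a point of `ℤ_p` at which `f` is
smaller than `g`. -/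
theorem exists_point (f g : ℚ[X]) (hfg : ¬ f ∣ g) (B : ℕ) :
    ∃ p : ℕ, ∃ _ : Fact p.Prime, B < p ∧ ∃ a : ℤ_[p], ‖ev p a f‖ < ‖ev p a g‖ := by
  have hg : g ≠ 0 := fun h => hfg (h ▸ dvd_zero f)
  by_cases hf : f = 0
  · obtain ⟨p, hB, hp⟩ := Nat.exists_infinite_primes (B + 1)
    have : Fact p.Prime := ⟨hp⟩
    obtain ⟨a, ha⟩ := (dense_ne_zero p g hg).nonempty
    refine ⟨p, ⟨hp⟩, hB, a, ?_⟩
    rw [hf, map_zero, norm_zero]
    exact norm_pos_iff.2 ha
  -- divide by the greatest common divisor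
  obtain ⟨d, f', g', hd, hcop, hf', hg'⟩ : ∃ d f' g' : ℚ[X], d ≠ 0 ∧ IsCoprime f' g' ∧
      f = d * f' ∧ g = d * g' := by
    have hd0 : EuclideanDomain.gcd f g ≠ 0 := fun h => hf (EuclideanDomain.gcd_eq_zero_iff.1 h).1
    obtain ⟨f', hf'⟩ := EuclideanDomain.gcd_dvd_left f g
    obtain ⟨g', hg'⟩ := EuclideanDomain.gcd_dvd_right f g
    have hbez := EuclideanDomain.gcd_eq_gcd_ab f g
    refine ⟨EuclideanDomain.gcd f g, f', g', hd0, ?_, hf', hg'⟩
    refine ⟨EuclideanDomain.gcdA f g, EuclideanDomain.gcdB f g, ?_⟩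
    generalize EuclideanDomain.gcdA f g = a at hbez ⊢
    generalize EuclideanDomain.gcdB f g = b at hbez ⊢
    generalize EuclideanDomain.gcd f g = d at hd0 hf' hg' hbez
    apply mul_left_cancel₀ hd0
    rw [mul_one]
    conv_rhs => rw [hbez, hf', hg']
    ring
  obtain ⟨α, β, hαβ⟩ := hcop
  have hf'0 : f' ≠ 0 := by
    rintro rfl
    exact hf (by rw [hf', mul_zero])
  have hdeg : 0 < f'.natDegree := by
    rw [Nat.pos_iff_ne_zero]
    intro h0
    obtain ⟨c, hc⟩ := natDegree_eq_zero.1 h0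
    have hc0 : c ≠ 0 := by
      rintro rfl
      rw [map_zero] at hc
      exact hf'0 hc.symm
    apply hfg
    rw [hf', hg', ← hc]
    refine ⟨C c⁻¹ * g', ?_⟩
    have h2 : C c * C c⁻¹ = (1 : ℚ[X]) := by rw [← C_mul, mul_inv_cancel₀ hc0, C_1]
    calc d * g' = d * (C c * C c⁻¹) * g' := by rw [h2, mul_one]
      _ = d * C c * (C c⁻¹ * g') := by ring
  obtain ⟨B1, hB1⟩ := exists_bound_integral α
  obtain ⟨B2, hB2⟩ := exists_bound_integral β
  obtain ⟨B3, hB3⟩ := exists_bound_integral g'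
  -- an integral multiple of `f'`
  obtain ⟨N, F, hN, hF⟩ : ∃ (N : ℤ) (F : ℤ[X]), N ≠ 0 ∧
      F.map (Int.castRingHom ℚ) = C (N : ℚ) * f' := by
    obtain ⟨b, hb0, hb⟩ := IsLocalization.integerNormalization_spec (nonZeroDivisors ℤ) f'
    refine ⟨b, IsLocalization.integerNormalization (nonZeroDivisors ℤ) f',
      nonZeroDivisors.ne_zero hb0, ?_⟩
    rw [← algebraMap_int_eq, hb]
    ext k
    rw [coeff_smul, coeff_C_mul, zsmul_eq_mul]
  have hFdeg : 0 < F.natDegree := by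
    have h1 : (F.map (Int.castRingHom ℚ)).natDegree = F.natDegree :=
      natDegree_map_eq_of_injective (RingHom.injective_int (Int.castRingHom ℚ)) F
    rw [← h1, hF, natDegree_C_mul (by exact_mod_cast hN)]
    exact hdeg
  obtain ⟨p, hpB, hp, a0, ha0⟩ := exists_prime_dvd_eval F hFdeg (B + B1 + B2 + B3 + N.natAbs)
  have : Fact p.Prime := ⟨hp⟩
  have hNp : ‖((N : ℤ) : ℚ_[p])‖ = 1 := by
    apply le_antisymm (Padic.norm_int_le_one N)
    by_contra hlt
    rw [not_le, Padic.norm_intCast_lt_one_iff] at hlt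
    have := Int.natAbs_dvd_natAbs.2 hlt
    rw [Int.natAbs_natCast] at this
    have h2 := Nat.le_of_dvd (Int.natAbs_pos.2 hN) this
    omega
  have hfa0 : ‖ev p (a0 : ℤ_[p]) f'‖ < 1 := by
    have h1 : ev p (a0 : ℤ_[p]) (F.map (Int.castRingHom ℚ)) = ((F.eval a0 : ℤ) : ℚ_[p]) := by
      unfold ev
      rw [aeval_def, eval₂_map]
      have : (algebraMap ℚ ℚ_[p]).comp (Int.castRingHom ℚ) = Int.castRingHom ℚ_[p] := by
        ext; simp
      rw [this, PadicInt.coe_intCast]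
      exact eval₂_at_apply (p := F) (Int.castRingHom ℚ_[p]) a0
    have h2 : ‖ev p (a0 : ℤ_[p]) (F.map (Int.castRingHom ℚ))‖ < 1 := by
      rw [h1, Padic.norm_intCast_lt_one_iff]
      exact ha0
    rw [hF, map_mul, norm_mul] at h2
    have h3 : ev p (a0 : ℤ_[p]) (C (N : ℚ)) = ((N : ℤ) : ℚ_[p]) := by
      unfold ev
      rw [aeval_C]; simp
    rwa [h3, hNp, one_mul] at h2
  have hopen : IsOpen {a : ℤ_[p] | ‖ev p a f'‖ < 1} :=
    isOpen_lt (continuous_ev p f').norm continuous_const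
  obtain ⟨a, haf, had⟩ := (dense_ne_zero p d hd).inter_open_nonempty _ hopen ⟨_, hfa0⟩
  refine ⟨p, ⟨hp⟩, by omega, a, ?_⟩
  simp only [Set.mem_ofPred_eq] at haf had
  have hα := norm_ev_le_one p a α (hB1 p (by omega))
  have hβ := norm_ev_le_one p a β (hB2 p (by omega))
  have hone : (1 : ℝ) ≤ ‖ev p a g'‖ := by
    have h1 : ev p a α * ev p a f' + ev p a β * ev p a g' = 1 := by
      rw [← map_mul, ← map_mul, ← map_add, hαβ, map_one]
    have h2 : ‖ev p a α * ev p a f' + ev p a β * ev p a g'‖ = 1 := by rw [h1, norm_one]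
    have h3 := Padic.nonarchimedean (ev p a α * ev p a f') (ev p a β * ev p a g')
    rw [h2, norm_mul, norm_mul] at h3
    have h4 : ‖ev p a α‖ * ‖ev p a f'‖ < 1 :=
      lt_of_le_of_lt (mul_le_of_le_one_left (norm_nonneg _) hα) haf
    rcases le_max_iff.1 h3 with h5 | h5
    · exact absurd h5 (not_le.2 h4)
    · exact h5.trans (mul_le_of_le_one_left (norm_nonneg _) hβ)
  rw [hf', hg', map_mul, map_mul, norm_mul, norm_mul]
  exact mul_lt_mul_of_pos_left (lt_of_lt_of_le haf hone) (norm_pos_iff.2 had)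

instance (p : Nat.Primes) : Fact (p : ℕ).Prime := ⟨p.2⟩

/-- The generic points. -/
theorem exists_points : ∃ ω : ∀ p : Nat.Primes, ℤ_[(p : ℕ)],
    (∀ (p : Nat.Primes) (f : ℚ[X]), f ≠ 0 → ev p (ω p) f ≠ 0) ∧
    (∀ f g : ℚ[X], ¬ f ∣ g → ∃ p : Nat.Primes, 5 < (p : ℕ) ∧
      ‖ev p (ω p) f‖ < ‖ev p (ω p) g‖) := by
  have hcount : Countable ℚ[X] := by
    rw [← Cardinal.mk_le_aleph0_iff]
    refine Polynomial.cardinalMk_le_max.trans ?_
    simp
  -- the first family of dense open sets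
  let U : (Nat.Primes × {f : ℚ[X] // f ≠ 0}) → Set (∀ p : Nat.Primes, ℤ_[(p : ℕ)]) :=
    fun x => {ω | ev x.1 (ω x.1) x.2 ≠ 0}
  let V : {x : ℚ[X] × ℚ[X] // ¬ x.1 ∣ x.2} → Set (∀ p : Nat.Primes, ℤ_[(p : ℕ)]) :=
    fun x => {ω | ∃ p : Nat.Primes, 5 < (p : ℕ) ∧
      ‖ev p (ω p) x.1.1‖ < ‖ev p (ω p) x.1.2‖}
  have hUo : ∀ x, IsOpen (U x) := by
    intro x
    have : Continuous (fun ω : (∀ p : Nat.Primes, ℤ_[(p : ℕ)]) => ev x.1 (ω x.1) (x.2 : ℚ[X])) :=
      (continuous_ev x.1 x.2).comp (continuous_apply x.1)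
    exact isOpen_ne_fun this continuous_const
  have hVo : ∀ x, IsOpen (V x) := by
    intro x
    have h1 : V x = ⋃ p : Nat.Primes, {ω : (∀ p : Nat.Primes, ℤ_[(p : ℕ)]) | 5 < (p : ℕ) ∧
        ‖ev p (ω p) x.1.1‖ < ‖ev p (ω p) x.1.2‖} := by
      ext ω; simp [V]
    rw [h1]
    apply isOpen_iUnion
    intro p
    by_cases hp : 5 < (p : ℕ)
    · simp only [hp, true_and]
      exact isOpen_lt ((continuous_ev p x.1.1).comp (continuous_apply p)).norm
        ((continuous_ev p x.1.2).comp (continuous_apply p)).norm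
    · simp [hp]
  classical
  have hUd : ∀ x, Dense (U x) := by
    intro x
    rw [dense_iff_inter_open]
    rintro O hO ⟨ω, hω⟩
    -- move the coordinate `x.1`
    have hcont : Continuous (fun a : ℤ_[(x.1 : ℕ)] => Function.update ω x.1 a) :=
      continuous_const.update x.1 continuous_id
    have hopen := hO.preimage hcont
    obtain ⟨a, ha, ha'⟩ := (dense_ne_zero x.1 x.2 x.2.2).inter_open_nonempty _ hopen
      ⟨ω x.1, by simpa using hω⟩
    refine ⟨Function.update ω x.1 a, ha, ?_⟩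
    simpa [U] using ha'
  have hVd : ∀ x, Dense (V x) := by
    intro x
    rw [dense_iff_inter_open]
    rintro O hO ⟨ω, hω⟩
    obtain ⟨I, u, hu, hsub⟩ := isOpen_pi_iff.1 hO ω hω
    obtain ⟨p, hp, hB, a, ha⟩ := exists_point x.1.1 x.1.2 x.2
      (5 + ∑ q ∈ I, (q : ℕ))
    let P : Nat.Primes := ⟨p, hp.out⟩
    have hPI : P ∉ I := by
      intro hmem
      have h1 : (P : ℕ) ≤ ∑ q ∈ I, (q : ℕ) :=
        Finset.single_le_sum (f := fun q : Nat.Primes => (q : ℕ)) (fun _ _ => Nat.zero_le _) hmem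
      have h2 : (P : ℕ) = p := rfl
      omega
    refine ⟨Function.update ω P a, hsub ?_, P, ?_, ?_⟩
    · intro q hq
      have hne : q ≠ P := fun h => hPI (h ▸ hq)
      rw [Function.update_of_ne hne]
      exact (hu q hq).2
    · change 5 < p
      omega
    · rw [Function.update_self]
      exact ha
  have hdense : Dense ((⋂ x, U x) ∩ (⋂ x, V x)) := by
    have hcU : Countable (Nat.Primes × {f : ℚ[X] // f ≠ 0}) := inferInstance
    have hcV : Countable {x : ℚ[X] × ℚ[X] // ¬ x.1 ∣ x.2} := inferInstance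
    have hd := dense_iInter_of_isOpen (f := Sum.elim U V)
      (by rintro (x | x); exacts [hUo x, hVo x]) (by rintro (x | x); exacts [hUd x, hVd x])
    refine hd.mono ?_
    intro ω hω
    rw [Set.mem_iInter] at hω
    exact ⟨Set.mem_iInter.2 fun x => hω (Sum.inl x), Set.mem_iInter.2 fun x => hω (Sum.inr x)⟩
  obtain ⟨ω, hω1, hω2⟩ := hdense.nonempty
  rw [Set.mem_iInter] at hω1 hω2
  exact ⟨ω, fun p f hf => hω1 (p, ⟨f, hf⟩), fun f g hfg => hω2 ⟨(f, g), hfg⟩⟩

end Pool.Agent.H1.WeakTrans
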