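import Pool.Agent.H1.WeakTrans.Norms

set_option autoImplicit false

/-!
A subring `R` of `ℚ[X]` whose additive group has only multiplications as endomorphisms, in which
divisibility is determined by divisibility by integers, whose only units are `1, -1`, and in which
the pairs `(5, X)` and `(5, 2 X)` are not equivalent under automorphisms of `R × R`.
-/

namespace Pool.Agent.H1.WeakTrans

open Polynomial

theorem eq_one_or_neg_one_of_padicNorm (c : ℚ) (h : ∀ p : Nat.Primes, padicNorm p c = 1) :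
    c = 1 ∨ c = -1 := by
  have hc0 : c ≠ 0 := by
    rintro rfl
    have := h p2
    rw [padicNorm.zero] at this
    exact zero_ne_one this
  have hval : ∀ p : Nat.Primes, padicValRat p c = 0 := by
    intro p
    have h1 := h p
    rw [padicNorm.eq_zpow_of_nonzero hc0] at h1
    have h2 : ((p : ℕ) : ℚ) ^ (-padicValRat p c) = ((p : ℕ) : ℚ) ^ (0 : ℤ) := by
      rw [h1, zpow_zero]
    have h3 : (1 : ℚ) < ((p : ℕ) : ℚ) := by exact_mod_cast p.2.one_lt
    have := zpow_right_injective₀ (by linarith) h3.ne' h2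
    simpa using this
  have hden : c.den = 1 := by
    by_contra hne
    obtain ⟨q, hq, hqd⟩ := Nat.exists_prime_and_dvd hne
    have : Fact q.Prime := ⟨hq⟩
    have h1 := hval ⟨q, hq⟩
    have h2 : ¬ (q : ℤ) ∣ c.num := by
      intro hd
      have h3 : q ∣ c.num.natAbs := Int.natCast_dvd.1 hd
      have h4 := Nat.dvd_gcd h3 hqd
      rw [c.reduced] at h4
      exact hq.one_lt.ne' (Nat.dvd_one.1 h4)
    unfold padicValRat at h1
    have h5 : padicValInt q c.num = 0 := padicValInt.eq_zero_of_not_dvd h2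
    have h6 : 0 < padicValNat q c.den := Nat.pos_of_ne_zero (fun h0 => by
      rcases padicValNat.eq_zero_iff.1 h0 with h7 | h7 | h7
      · exact hq.one_lt.ne' h7
      · exact c.den_ne_zero h7
      · exact h7 hqd)
    simp only [h5] at h1
    change ((0 : ℕ) : ℤ) - (padicValNat q c.den : ℤ) = 0 at h1
    omega
  have hnum : c.num.natAbs = 1 := by
    by_contra hne
    obtain ⟨q, hq, hqd⟩ := Nat.exists_prime_and_dvd hne
    have : Fact q.Prime := ⟨hq⟩
    have h1 := hval ⟨q, hq⟩
    unfold padicValRat at h1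
    rw [hden] at h1
    have h6 : 0 < padicValInt q c.num := Nat.pos_of_ne_zero (fun h0 => by
      unfold padicValInt at h0
      rcases padicValNat.eq_zero_iff.1 h0 with h7 | h7 | h7
      · exact hq.one_lt.ne' h7
      · exact hc0 (Rat.num_eq_zero.1 (Int.natAbs_eq_zero.1 h7))
      · exact h7 hqd)
    change (padicValInt q c.num : ℤ) - (padicValNat q 1 : ℤ) = 0 at h1
    rw [padicValNat_one_right] at h1
    omega
  have hcn : c = (c.num : ℚ) := by
    conv_lhs => rw [← Rat.num_div_den c, hden]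
    simp
  rcases Int.natAbs_eq c.num with h1 | h1
  · left
    rw [hcn, h1, hnum]; simp
  · right
    rw [hcn, h1, hnum]; simp

theorem padicNorm_pow (p : ℕ) [Fact p.Prime] (x : ℚ) (n : ℕ) :
    padicNorm p (x ^ n) = padicNorm p x ^ n := by
  induction n with
  | zero => simp
  | succ n ih => rw [pow_succ, padicNorm.mul, ih, pow_succ]

/-- Main algebraic facts about the ring `R`. -/
theorem exists_ring : ∃ R : Subring ℚ[X],
    (∀ φ : R →+ R, ∀ h : R, φ h = h * φ 1) ∧
    (∀ f g : R, (∀ (p : Nat.Primes) (n : ℕ), (∃ u : R, (p : ℕ) ^ n • u = f) →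
      ∃ u : R, (p : ℕ) ^ n • u = g) → f ∣ g) ∧
    (∀ u v : R, u * v = 1 → u = 1 ∨ u = -1) ∧
    (∃ hX : X ∈ R, ∀ a b c d : R, a * 5 + b * ⟨X, hX⟩ = 5 →
      c * 5 + d * ⟨X, hX⟩ = 2 * ⟨X, hX⟩ → ¬ (a * d - b * c = 1 ∨ a * d - b * c = -1)) := by
  obtain ⟨N, hmul, hadd, hC, hX, hzpow, hdvd, hfive, htwo⟩ := exists_norms
  have hone : ∀ p, N p 1 = 1 := by
    intro p
    have := hC p 1
    simpa using this
  have hzero : ∀ p, N p 0 = 0 := by
    intro p
    have := hC p 0
    simpa using this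
  have hneg : ∀ p f, N p (-f) = N p f := by
    intro p f
    have h1 : -f = C (-1 : ℚ) * f := by simp
    rw [h1, hmul, hC]
    simp
  let R : Subring ℚ[X] :=
    { carrier := {f | ∀ p, N p f ≤ 1}
      mul_mem' := by
        intro f g hf hg p
        rw [hmul]
        have hnn : ∀ f, 0 ≤ N p f := by
          intro f
          by_cases h : f = 0
          · rw [h, hzero]
          · obtain ⟨k, hk⟩ := hzpow p f h
            rw [hk]; positivity
        exact mul_le_one₀ (hf p) (hnn g) (hg p)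
      one_mem' := fun p => (hone p).le
      add_mem' := fun {f g} hf hg p => (hadd p f g).trans (max_le (hf p) (hg p))
      zero_mem' := fun p => by rw [hzero]; exact zero_le_one
      neg_mem' := fun {f} hf p => by rw [hneg]; exact hf p }
  have hR : ∀ f, f ∈ R ↔ ∀ p, N p f ≤ 1 := fun f => Iff.rfl
  have hpos : ∀ p : Nat.Primes, (0 : ℝ) < ((p : ℕ) : ℝ) := fun p => by exact_mod_cast p.2.pos
  have hgt : ∀ p : Nat.Primes, (1 : ℝ) < ((p : ℕ) : ℝ) := fun p => by exact_mod_cast p.2.one_lt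
  have hCpow : ∀ (p : Nat.Primes) (n : ℕ), N p (C (((p : ℕ) : ℚ) ^ n)) = ((p : ℕ) : ℝ) ^ (-(n : ℤ)) := by
    intro p n
    rw [hC]
    rw [padicNorm_pow, padicNorm.padicNorm_p_of_prime]
    push_cast
    rw [zpow_neg, zpow_natCast, inv_pow]
  -- divisibility by powers of `p` in `R`
  have hdiv : ∀ (p : Nat.Primes) (n : ℕ) (f : R),
      (∃ u : R, (p : ℕ) ^ n • u = f) ↔ N p f ≤ ((p : ℕ) : ℝ) ^ (-(n : ℤ)) := by
    intro p n f
    constructor
    · rintro ⟨u, rfl⟩
      have h1 : (((p : ℕ) ^ n • u : R) : ℚ[X]) = C (((p : ℕ) : ℚ) ^ n) * (u : ℚ[X]) := by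
        simp [nsmul_eq_mul]
      rw [h1, hmul, hCpow]
      exact mul_le_of_le_one_right (zpow_nonneg (hpos p).le _) ((hR _).1 u.2 p)
    · intro hf
      have hp0 : (((p : ℕ) : ℚ) ^ n) ≠ 0 := pow_ne_zero _ (by exact_mod_cast p.2.ne_zero)
      have hu : C ((((p : ℕ) : ℚ) ^ n)⁻¹) * (f : ℚ[X]) ∈ R := by
        rw [hR]
        intro q
        by_cases hq : q = p
        · subst hq
          have h1 : N q (C (((q : ℕ) : ℚ) ^ n)) * N q (C ((((q : ℕ) : ℚ) ^ n)⁻¹) * (f : ℚ[X])) =
              N q f := by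
            rw [← hmul, ← mul_assoc, ← C_mul, mul_inv_cancel₀ hp0, C_1, one_mul]
          rw [hCpow] at h1
          rw [← h1] at hf
          exact le_of_mul_le_mul_left (by rw [mul_one]; exact hf) (zpow_pos (hpos q) _)
        · rw [hmul, hC]
          have h1 : padicNorm q ((((p : ℕ) : ℚ) ^ n)⁻¹) = 1 := by
            have h2 : padicNorm q (((p : ℕ) : ℚ)) = 1 := by
              apply padicNorm.padicNorm_of_prime_of_ne
              exact fun h => hq (Subtype.ext h)
            rw [← one_div, padicNorm.div, padicNorm.one, padicNorm_pow, h2, one_pow, div_one]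
          rw [h1]
          simpa using (hR _).1 f.2 q
      refine ⟨⟨_, hu⟩, ?_⟩
      ext1
      have h1 : (((p : ℕ) ^ n • (⟨C ((((p : ℕ) : ℚ) ^ n)⁻¹) * (f : ℚ[X]), hu⟩ : R) : R) : ℚ[X]) =
          C (((p : ℕ) : ℚ) ^ n) * (C ((((p : ℕ) : ℚ) ^ n)⁻¹) * (f : ℚ[X])) := by
        simp [nsmul_eq_mul]
      rw [h1, ← mul_assoc, ← C_mul, mul_inv_cancel₀ hp0, C_1, one_mul]
  refine ⟨R, ?_, ?_, ?_, ?_⟩
  · -- endomorphisms
    intro φ h
    by_contra hne
    have hD : ((φ h - h * φ 1 : R) : ℚ[X]) ≠ 0 := by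
      intro h0
      apply hne
      have : φ h - h * φ 1 = 0 := Subtype.ext h0
      exact sub_eq_zero.1 this
    obtain ⟨k, hk⟩ := hzpow p2 _ hD
    obtain ⟨m, hm⟩ := htwo h ((hR _).1 h.2 p2) (k.toNat + 1)
    have h2 : ((p2 : ℕ) : ℝ) = 2 := by norm_num [p2]
    have hmR : ((h - (m : R) : R) : ℚ[X]) = (h : ℚ[X]) - C (m : ℚ) := by simp
    obtain ⟨u, hu⟩ := (hdiv p2 (k.toNat + 1) (h - (m : R))).2 (by rw [hmR, h2]; exact hm)
    have e1 : h = (m : R) + (p2 : ℕ) ^ (k.toNat + 1) • u := by rw [hu]; ring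
    have e2 : φ h = m • φ 1 + (p2 : ℕ) ^ (k.toNat + 1) • φ u := by
      conv_lhs => rw [e1]
      rw [map_add, map_nsmul]
      congr 1
      have : (m : R) = m • (1 : R) := by simp
      rw [this, map_zsmul]
    have e3 : φ h - h * φ 1 = (p2 : ℕ) ^ (k.toNat + 1) • (φ u - u * φ 1) := by
      rw [e2]
      conv_lhs => rw [e1]
      simp only [nsmul_eq_mul, zsmul_eq_mul]
      ring
    have h3 := (hdiv p2 (k.toNat + 1) (φ h - h * φ 1)).1 ⟨_, e3.symm⟩
    rw [hk, h2] at h3
    have h4 : -k ≤ -((k.toNat + 1 : ℕ) : ℤ) := (zpow_le_zpow_iff_right₀ one_lt_two).1 h3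
    have h5 := Int.self_le_toNat k
    push_cast at h4
    omega
  · -- divisibility
    intro f g hfg
    by_cases hfz : f = 0
    · -- then `g` is infinitely divisible
      have hg0 : g = 0 := by
        by_contra hg0
        have hg1 : (g : ℚ[X]) ≠ 0 := fun h => hg0 (Subtype.ext h)
        obtain ⟨k, hk⟩ := hzpow p2 _ hg1
        have h2 : ((p2 : ℕ) : ℝ) = 2 := by norm_num [p2]
        have h3 := (hdiv p2 (k.toNat + 1) g).1 (hfg p2 (k.toNat + 1) ⟨0, by rw [hfz, smul_zero]⟩)
        rw [hk, h2] at h3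
        have h4 : -k ≤ -((k.toNat + 1 : ℕ) : ℤ) := (zpow_le_zpow_iff_right₀ one_lt_two).1 h3
        have h5 := Int.self_le_toNat k
        push_cast at h4
        omega
      rw [hg0]
      exact dvd_zero f
    have hf1 : (f : ℚ[X]) ≠ 0 := fun h => hfz (Subtype.ext h)
    have hle : ∀ p, N p g ≤ N p f := by
      intro p
      obtain ⟨k, hk⟩ := hzpow p _ hf1
      have h1 : N p f ≤ 1 := (hR _).1 f.2 p
      have hk0 : 0 ≤ k := by
        rw [hk, ← zpow_zero ((p : ℕ) : ℝ)] at h1
        have := (zpow_le_zpow_iff_right₀ (hgt p)).1 h1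
        omega
      obtain ⟨n, rfl⟩ := Int.eq_ofNat_of_zero_le hk0
      rw [hk]
      exact (hdiv p n g).1 (hfg p n ((hdiv p n f).2 hk.le))
    have hdvd' : (f : ℚ[X]) ∣ g := by
      by_contra hnd
      obtain ⟨p, hp⟩ := hdvd _ _ hnd
      exact absurd (hle p) (not_le.2 hp)
    obtain ⟨r, hr⟩ := hdvd'
    have hrR : r ∈ R := by
      rw [hR]
      intro p
      have h1 := hle p
      rw [hr, hmul] at h1
      obtain ⟨k, hk⟩ := hzpow p _ hf1
      have h2 : 0 < N p f := by rw [hk]; exact zpow_pos (hpos p) _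
      exact le_of_mul_le_mul_left (by rw [mul_one]; exact h1) h2
    exact ⟨⟨r, hrR⟩, Subtype.ext hr⟩
  · -- units
    intro u v huv
    have h1 : (u : ℚ[X]) * (v : ℚ[X]) = 1 := by
      have := congrArg (fun x : R => (x : ℚ[X])) huv
      simpa using this
    have hu : IsUnit (u : ℚ[X]) := IsUnit.of_mul_eq_one _ h1
    obtain ⟨c, hc, hcu⟩ := isUnit_iff.1 hu
    have hnorm : ∀ p : Nat.Primes, padicNorm p c = 1 := by
      intro p
      have h2 : N p u ≤ 1 := (hR _).1 u.2 p
      have h3 : N p v ≤ 1 := (hR _).1 v.2 p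
      have h4 : N p u * N p v = 1 := by rw [← hmul, h1, hone]
      have h5 : N p u = 1 := by
        rw [← hcu, hC] at h2 h4 ⊢
        have h6 : (0 : ℝ) ≤ (padicNorm p c : ℝ) := by exact_mod_cast padicNorm.nonneg c
        nlinarith
      rw [← hcu, hC] at h5
      exact_mod_cast h5
    rcases eq_one_or_neg_one_of_padicNorm c hnorm with h2 | h2
    · left
      apply Subtype.ext
      rw [← hcu, h2]; simp
    · right
      apply Subtype.ext
      rw [← hcu, h2]; simp
  · -- the two pairs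
    refine ⟨hX, ?_⟩
    intro a b c d h1 h2 h3
    have : Fact (Nat.Prime 5) := ⟨Nat.prime_five⟩
    have e5 : ((5 : R) : ℚ[X]) = 5 := map_ofNat R.subtype 5
    have e2 : ((2 : R) : ℚ[X]) = 2 := map_ofNat R.subtype 2
    have h1' : (a : ℚ[X]) * 5 + (b : ℚ[X]) * X = 5 := by
      have := congrArg (fun x : R => (x : ℚ[X])) h1
      simpa [e5] using this
    have h2' : (c : ℚ[X]) * 5 + (d : ℚ[X]) * X = 2 * X := by
      have := congrArg (fun x : R => (x : ℚ[X])) h2
      simpa [e5, e2] using this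
    have ha : (a : ℚ[X]).eval 0 = 1 := by
      have := congrArg (eval 0) h1'
      simp at this
      linarith
    have hc : (c : ℚ[X]).eval 0 = 0 := by
      have := congrArg (eval 0) h2'
      simpa using this
    have hd : (c : ℚ[X]).coeff 1 * 5 + (d : ℚ[X]).coeff 0 = 2 := by
      have h4 := congrArg (fun f => coeff f 1) h2'
      have h5 : ((5 : ℚ[X])) = C 5 := (map_ofNat C 5).symm
      have h6 : ((2 : ℚ[X])) = C 2 := (map_ofNat C 2).symm
      simp only [coeff_add] at h4
      rw [h5, h6, coeff_mul_C, coeff_C_mul, coeff_X_one, mul_one] at h4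
      have h7 : ((d : ℚ[X]) * X).coeff 1 = (d : ℚ[X]).coeff 0 := by
        rw [show (1 : ℕ) = 0 + 1 from rfl, coeff_mul_X]
      rw [h7] at h4
      exact h4
    have hdet : (d : ℚ[X]).coeff 0 = 1 ∨ (d : ℚ[X]).coeff 0 = -1 := by
      rw [coeff_zero_eq_eval_zero]
      rcases h3 with h3 | h3
      · left
        have := congrArg (fun x : R => (x : ℚ[X]).eval 0) h3
        simp [ha, hc] at this
        exact this
      · right
        have := congrArg (fun x : R => (x : ℚ[X]).eval 0) h3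
        simp [ha, hc] at this
        exact this
    have hc1 := hfive c ((hR _).1 c.2 p5) 1
    -- `5 c₁ ∈ {1, 3}` is impossible
    have h5 : padicNorm 5 (5 : ℚ) = 1 / 5 := by
      have := padicNorm.padicNorm_p (p := 5) (by norm_num)
      simpa using this
    have hkey : padicNorm 5 ((c : ℚ[X]).coeff 1 * 5) ≤ 1 / 5 := by
      rw [padicNorm.mul, h5]
      nlinarith
    rcases hdet with h6 | h6
    · have h7 : (c : ℚ[X]).coeff 1 * 5 = 1 := by linarith
      rw [h7, padicNorm.one] at hkey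
      norm_num at hkey
    · have h7 : (c : ℚ[X]).coeff 1 * 5 = ((3 : ℕ) : ℚ) := by push_cast; linarith
      have h8 : padicNorm 5 ((3 : ℕ) : ℚ) = 1 := by
        rw [padicNorm.nat_eq_one_iff]
        norm_num
      rw [h7, h8] at hkey
      norm_num at hkey

end Pool.Agent.H1.WeakTrans
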